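import Pool.Agent.W973.IP.Defs

/-!
# No Fritz John points in very different scales
-/

set_option autoImplicit false

namespace Pool.Agent.W395.IP

open Pool.Agent.W973.IP MvPolynomial

theorem nofj (h1 : S_PAR1) (h2 : S_IND) (h3 : S_IDX) (h4 : S_ASY) (h5 : S_SEP) : S_NOFJ := by
  intro n P hP
  obtain ⟨hinj, hlt, hcard⟩ := h3 n
  have key : ∀ (p : Fin (n + 1) × Fin (MM n)), ∃ ε > (0 : ℝ), ∀ (c e : ℝ) (u : Vec n)
      (w : Fin ((p.1 : ℕ) + 1) → Vec n) (lam : Fin ((p.1 : ℕ) + 1) → ℝ),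
      0 < c → c < ε → 0 < e → e ≤ c ^ (2 ^ bb n) →
      Function.Injective (fun i => Lf (p.2 : ℕ) (w i)) →
      ¬ FJ P (aE n) c e c ((p.1 : ℕ) + 1) u w lam := by
    rintro ⟨r, s⟩
    obtain ⟨R, hR0, hRd, hR⟩ := h1 n P hP r s (Nat.lt_succ_iff.mp r.2)
    obtain ⟨S, hS0, hSd, hS⟩ := h2 (Ft n) (Fin 2) (bb n) (fa n) idx hinj hlt R hR0
      (fun x => hRd _)
    obtain ⟨ε, hε, hA⟩ := h4 S (2 ^ bb n) hS0 ((hSd 0).trans_lt (hRd _))
    refine ⟨ε, hε, fun c e u w lam hc hcε he hec hsep hFJ => ?_⟩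
    apply hA c e hc hcε he hec
    rw [hS]
    exact hR (aE n) c e u w lam he.ne' hFJ hsep
  choose ε hε hK using key
  have hMM : 0 < MM n := by unfold MM; omega
  have hne : (Finset.univ : Finset (Fin (n + 1) × Fin (MM n))).Nonempty :=
    ⟨(0, ⟨0, hMM⟩), Finset.mem_univ _⟩
  refine ⟨Finset.univ.inf' hne ε, ?_, ?_⟩
  · rw [gt_iff_lt, Finset.lt_inf'_iff]
    intro p _
    exact hε p
  · intro c e r u w lam hr hc hce he hec hFJ
    obtain ⟨s, hs⟩ := h5 n (r + 1) w (by omega) hFJ.inj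
    have hlt' : c < ε (⟨r, Nat.lt_succ_of_le hr⟩, s) :=
      hce.trans_le (Finset.inf'_le _ (Finset.mem_univ _))
    exact hK (⟨r, Nat.lt_succ_of_le hr⟩, s) c e u w lam hc hlt' he hec hs hFJ

end Pool.Agent.W395.IP
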